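import Pool.Agent.Helper49.NF.Goals

/-!
# NF, packet CLS
-/

set_option autoImplicit false

namespace Pool.Agent.Helper17.NF

open Finset
open Pool.Agent.Helper47.SR (Grp mv lev wt Ew W IsInv up dn StarAt HalfStarAt Goal_KKA Goal_KKB)
open Pool.Agent.Helper49.NF

theorem W_le {n : ℕ} (G : Grp n) (k s : ℕ) {F : Finset (Finset (Fin n))} (hF : F ⊆ lev n k) :
    W G F ≤ s * #F + Nn G k (s + 1) := by
  unfold W Nn
  have h1 : ∑ A ∈ F, (1 + wt G A) ≤
      ∑ A ∈ F, (s + if s + 1 ≤ 1 + wt G A then (1 + wt G A) else 0) := by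
    refine Finset.sum_le_sum fun A _ => ?_
    split_ifs with h <;> omega
  refine le_trans h1 ?_
  rw [Finset.sum_add_distrib, Finset.sum_const, smul_eq_mul, mul_comm (#F) s,
    ← Finset.sum_filter]
  refine Nat.add_le_add_left ?_ _
  exact Finset.sum_le_sum_of_subset (Finset.filter_subset_filter _ hF)

theorem card_le_W {n : ℕ} (G : Grp n) (F : Finset (Finset (Fin n))) : #F ≤ W G F := by
  unfold W
  rw [Finset.sum_add_distrib]
  simp

/-- PACKET CLS -/
theorem goal_CLS (hKKA : Goal_KKA) (hKKB : Goal_KKB) : Goal_CLS := by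
  intro n m s i j G S Y hm hn hs hF hcS hcY hN0 hN1 hA hB
  have k1 := hKKA n m (m + i) hm (by omega) Y hF.Y1 hcY
  have k2 := hKKB n m (n - m + j) (by omega) (by omega) S hF.S1 hcS
  have e1 : m + i - m = i := by omega
  have e2 : n - m + j - (n - m) + 1 = j + 1 := by omega
  rw [e1] at k1
  rw [e2] at k2
  have wS := W_le G m s hF.S1
  have wD := W_le G (m + 1) s (F := dn m Y) (Finset.filter_subset _ _)
  have cU := card_le_W G (up m S)
  have cY := card_le_W G Y
  have hlt := hF.lt
  unfold Sat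
  generalize W G (dn m Y) = WD at *
  generalize W G (up m S) = WU at *
  generalize W G Y = WY at *
  generalize W G S = w at *
  generalize #(dn m Y) = cd at *
  generalize #(up m S) = cu at *
  generalize #S = cs at *
  generalize #Y = cy at *
  generalize n - m = N at *
  generalize Nn G m (s + 1) = N0 at *
  generalize Nn G (m + 1) (s + 1) = N1 at *
  have a1 : 63 * w ≤ 64 * (s * cs) := by omega
  have a2 : 63 * (N * w) ≤ 64 * (s * (j + 1)) * WU := by
    calc 63 * (N * w) = N * (63 * w) := by ring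
      _ ≤ N * (64 * (s * cs)) := Nat.mul_le_mul_left _ a1
      _ = 64 * s * (N * cs) := by ring
      _ ≤ 64 * s * ((j + 1) * cu) := Nat.mul_le_mul_left _ k2
      _ ≤ 64 * s * ((j + 1) * WU) := Nat.mul_le_mul_left _ (Nat.mul_le_mul_left _ cU)
      _ = _ := by ring
  have a3 : 64 * ((m + 1) * WD) ≤ 64 * (s * i) * WY + (m + 1) * w := by
    calc 64 * ((m + 1) * WD) ≤ 64 * ((m + 1) * (s * cd + N1)) :=
          Nat.mul_le_mul_left _ (Nat.mul_le_mul_left _ wD)
      _ = 64 * s * ((m + 1) * cd) + (m + 1) * (64 * N1) := by ring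
      _ ≤ 64 * s * (i * cy) + (m + 1) * w :=
          Nat.add_le_add (Nat.mul_le_mul_left _ k1) (Nat.mul_le_mul_left _ hN1)
      _ ≤ 64 * s * (i * WY) + (m + 1) * w :=
          Nat.add_le_add_right (Nat.mul_le_mul_left _ (Nat.mul_le_mul_left _ cY)) _
      _ = _ := by ring
  have hpos : 0 < 64 * (m + 1) * (s * (j + 1)) := by positivity
  refine Nat.le_of_mul_le_mul_left ?_ hpos
  generalize s * (j + 1) = a at *
  generalize s * i = c at *
  generalize m + 1 = q at *
  have b1 : 64 * q * a * (WD + w) ≤ a * (64 * c * WY + q * w) + 64 * q * a * w := by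
    calc 64 * q * a * (WD + w) = a * (64 * (q * WD)) + 64 * q * a * w := by ring
      _ ≤ _ := Nat.add_le_add_right (Nat.mul_le_mul_left _ a3) _
  have b2 : 63 * (N * q) * w + 64 * q * a * WY ≤ 64 * q * a * (WU + WY) := by
    calc 63 * (N * q) * w + 64 * q * a * WY = q * (63 * (N * w)) + 64 * q * a * WY := by ring
      _ ≤ q * (64 * a * WU) + 64 * q * a * WY := Nat.add_le_add_right (Nat.mul_le_mul_left _ a2) _
      _ = _ := by ring
  refine le_trans b1 (le_trans ?_ b2)
  rcases Nat.le_total c q with hcq | hcq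
  · have c1 : a * (64 * c * WY) ≤ 64 * q * a * WY := by
      calc a * (64 * c * WY) = c * (64 * a * WY) := by ring
        _ ≤ q * (64 * a * WY) := Nat.mul_le_mul_right _ hcq
        _ = _ := by ring
    have c2 := Nat.mul_le_mul_right w hB
    calc a * (64 * c * WY + q * w) + 64 * q * a * w
        = a * (64 * c * WY) + 65 * (a * q) * w := by ring
      _ ≤ 64 * q * a * WY + 63 * (N * q) * w := Nat.add_le_add c1 c2
      _ = _ := by ring
  · obtain ⟨e, he⟩ := Nat.exists_eq_add_of_le hcq
    have c1 : 64 * a * e * WY ≤ 64 * a * e * w := Nat.mul_le_mul_left _ hlt.le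
    have c2 := Nat.mul_le_mul_right w hA
    subst he
    calc a * (64 * (q + e) * WY + q * w) + 64 * q * a * w
        = 64 * a * e * WY + (64 * q * a * WY + 65 * (a * q) * w) := by ring
      _ ≤ 64 * a * e * w + (64 * q * a * WY + 65 * (a * q) * w) := Nat.add_le_add_right c1 _
      _ = (64 * (a * (q + e)) + a * q) * w + 64 * q * a * WY := by ring
      _ ≤ 63 * (N * q) * w + 64 * q * a * WY := Nat.add_le_add_right c2 _

end Pool.Agent.Helper17.NF
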